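import Pool.Agent.Helper40.GP.Stm

/-!
# Averaging the pencil over the circle
-/

open Polynomial Real MeasureTheory Filter

namespace Pool.Agent.Helper46.GP

open Pool.Agent.Helper40.GP

lemma circInt_poly (p : ℂ[X]) : CircleIntegrable (fun x => log ‖p.eval x‖) 0 1 := by
  rw [circleIntegrable_def]
  exact p.intervalIntegrable_mahlerMeasure

lemma avg_poly (p : ℂ[X]) : circleAverage (fun x => log ‖p.eval x‖) 0 1 =
    log p.mahlerMeasure := by
  rw [← logMahlerMeasure_def, logMahlerMeasure_eq_log_MahlerMeasure]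

/-- A pair of constants. -/
lemma pair_int (c c' : ℂ) : CircleIntegrable (fun v => log ‖c - v * c'‖) 0 1 := by
  have h := circInt_poly (C (-c') * X + C c)
  have h2 : (fun v : ℂ => log ‖(C (-c') * X + C c).eval v‖) = fun v => log ‖c - v * c'‖ := by
    funext v
    simp only [eval_add, eval_mul, eval_C, eval_X]
    congr 2
    ring
  rwa [h2] at h

lemma pair_avg (c c' : ℂ) (h : c ≠ 0 ∨ c' ≠ 0) :
    circleAverage (fun v => log ‖c - v * c'‖) 0 1 = log (max ‖c‖ ‖c'‖) := by
  have h1 := avg_poly (C (-c') * X + C c)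
  have h2 : (fun v : ℂ => log ‖(C (-c') * X + C c).eval v‖) = fun v => log ‖c - v * c'‖ := by
    funext v
    simp only [eval_add, eval_mul, eval_C, eval_X]
    congr 2
    ring
  rw [h2] at h1
  rw [h1]
  by_cases hc : c' = 0
  · subst hc
    simp
  · rw [mahlerMeasure_C_mul_X_add_C (neg_ne_zero.2 hc), norm_neg, max_comm]

section pq

variable {P Q : ℂ[X]}

lemma pos_ne (P : ℂ[X]) : {x : ℂ | P ≠ 0 ∧ P.eval x = 0}.Finite := by
  by_cases h : P = 0
  · simp [h]
  · refine P.roots.toFinset.finite_toSet.subset fun x hx => ?_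
    simpa [h] using hx.2

/-- The Mahler measures agree. -/
lemma mm_eq (hP : P ≠ 0) (h : ∀ x : ℂ, ‖x‖ = 1 → ‖P.eval x‖ = ‖Q.eval x‖) :
    Q ≠ 0 ∧ log Q.mahlerMeasure = log P.mahlerMeasure := by
  constructor
  · rintro rfl
    apply hP
    apply Polynomial.eq_zero_of_infinite_isRoot
    refine Set.Infinite.mono (s := Metric.sphere (0 : ℂ) 1) (fun x hx => ?_) ?_
    · have hx' : ‖x‖ = 1 := by simpa using hx
      have := h x hx'
      simpa using this
    · intro hf
      have h1 : (Set.Ico (0 : ℝ) 1).Infinite := Set.Ico_infinite one_pos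
      refine h1 ?_
      refine Set.Finite.of_finite_image (f := circleMap 0 1) (hf.subset ?_) ?_
      · rintro _ ⟨t, -, rfl⟩
        simp
      · refine (injOn_circleMap_of_abs_sub_le' one_ne_zero (a := 0) (b := 1) ?_).mono ?_
        · have := Real.pi_gt_three
          linarith
        · intro x hx
          exact ⟨hx.1, hx.2⟩
  · rw [← avg_poly, ← avg_poly]
    apply circleAverage_congr_sphere
    intro x hx
    have hx' : ‖x‖ = 1 := by simpa using hx
    simp only [h x hx']

/-- The inner average. -/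
lemma inner_avg (hQ : Q ≠ 0) {v : ℂ} (hv : P - C v * Q ≠ 0) :
    circleAverage (fun x => log ‖P.eval x / Q.eval x - v‖) 0 1 =
      log (P - C v * Q).mahlerMeasure - log Q.mahlerMeasure := by
  rw [← avg_poly, ← avg_poly, ← circleAverage_fun_sub (circInt_poly _) (circInt_poly _)]
  apply circleAverage_congr_codiscreteWithin _ one_ne_zero
  have h1 := compl_finite_mem_codiscreteWithin (s := Metric.sphere (0 : ℂ) |1|) (pos_ne Q)
  have h2 := compl_finite_mem_codiscreteWithin (s := Metric.sphere (0 : ℂ) |1|)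
    (pos_ne (P - C v * Q))
  filter_upwards [h1, h2] with x hx1 hx2
  have e1 : Q.eval x ≠ 0 := fun h => hx1 ⟨hQ, h⟩
  have e2 : (P - C v * Q).eval x ≠ 0 := fun h => hx2 ⟨hv, h⟩
  have e3 : P.eval x / Q.eval x - v = (P - C v * Q).eval x / Q.eval x := by
    rw [eval_sub, eval_mul, eval_C]
    field_simp
  rw [e3, norm_div, log_div (norm_ne_zero_iff.2 e2) (norm_ne_zero_iff.2 e1)]

lemma mer (P Q : ℂ[X]) : Meromorphic fun x : ℂ => P.eval x / Q.eval x := by
  intro x
  have h1 : AnalyticAt ℂ (fun x => P.eval x) x := by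
    have := (analyticOnNhd_id (𝕜 := ℂ) (s := Set.univ)).aeval_polynomial P x trivial
    simpa using this
  have h2 : AnalyticAt ℂ (fun x => Q.eval x) x := by
    have := (analyticOnNhd_id (𝕜 := ℂ) (s := Set.univ)).aeval_polynomial Q x trivial
    simpa using this
  exact h1.meromorphicAt.div h2.meromorphicAt

lemma outer_int (P Q : ℂ[X]) : CircleIntegrable
    (fun v => circleAverage (fun x => log ‖P.eval x / Q.eval x - v‖) 0 1) 0 1 :=
  ValueDistribution.circleIntegrable_circleAverage_log_norm_sub (mer P Q)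

lemma outer_avg (h : ∀ x : ℂ, ‖x‖ = 1 → ‖P.eval x‖ = ‖Q.eval x‖) : circleAverage
    (fun v => circleAverage (fun x => log ‖P.eval x / Q.eval x - v‖) 0 1) 0 1 = 0 := by
  have h1 := congrFun (ValueDistribution.circleAverage_circleAverage_eq_proximity_top
    (mer P Q)) 1
  refine h1.trans ?_
  rw [ValueDistribution.proximity_top]
  have h2 : circleAverage (fun x => log⁺ ‖P.eval x / Q.eval x‖) 0 1 =
      circleAverage (fun _ => (0 : ℝ)) 0 1 := by
    apply circleAverage_congr_sphere
    intro x hx
    have hx' : ‖x‖ = 1 := by simpa using hx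
    have h3 : ‖P.eval x / Q.eval x‖ ≤ 1 := by
      rw [norm_div, h x hx']
      exact div_self_le_one _
    change log⁺ ‖P.eval x / Q.eval x‖ = 0
    rw [posLog_eq_zero_iff, abs_of_nonneg (norm_nonneg _)]
    exact h3
  rw [h2, circleAverage_const]

end pq

/-- Averaging over the circle. -/
theorem av : S_AV := by
  intro m c c' w W P Q S hc hw hW hP hPQ hS
  obtain ⟨hQ, hM⟩ := mm_eq hP hPQ
  set J : ℂ → ℝ := fun v => circleAverage (fun x => log ‖P.eval x / Q.eval x - v‖) 0 1 with hJ
  set G : ℂ → ℝ := fun v => (∑ i, w i * log ‖c i - v * c' i‖) + W * (J v + log Q.mahlerMeasure)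
    with hG
  have i1 : ∀ i ∈ Finset.univ, CircleIntegrable (fun v => w i * log ‖c i - v * c' i‖) 0 1 :=
    fun i _ => (pair_int (c i) (c' i)).const_fun_smul (a := w i)
  have i2 : CircleIntegrable (fun v => ∑ i, w i * log ‖c i - v * c' i‖) 0 1 :=
    CircleIntegrable.fun_sum _ i1
  have i3 : CircleIntegrable (fun v => J v + log Q.mahlerMeasure) 0 1 :=
    (outer_int P Q).fun_add (circleIntegrable_const _ _ _)
  have i4 : CircleIntegrable (fun v => W * (J v + log Q.mahlerMeasure)) 0 1 :=
    i3.const_fun_smul (a := W)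
  have i5 : CircleIntegrable G 0 1 := i2.fun_add i4
  have a1 : circleAverage G 0 1 = ∑ i, w i * log (max ‖c i‖ ‖c' i‖) +
      W * log P.mahlerMeasure := by
    rw [hG, circleAverage_fun_add i2 i4, circleAverage_fun_sum i1]
    congr 1
    · refine Finset.sum_congr rfl fun i _ => ?_
      rw [← pair_avg (c i) (c' i) (hc i)]
      exact circleAverage_fun_smul (a := w i)
    · have := circleAverage_fun_smul (a := W) (f := fun v => J v + log Q.mahlerMeasure)
        (c := 0) (R := 1)
      simp only [smul_eq_mul] at this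
      rw [this, circleAverage_fun_add (outer_int P Q) (circleIntegrable_const _ _ _),
        circleAverage_const, outer_avg hPQ, zero_add, hM]
  set S' : Set ℂ := S ∪ {v | ∃ i, c i - v * c' i = 0} ∪ {v | P - C v * Q = 0} with hS'
  have f1 : {v : ℂ | ∃ i, c i - v * c' i = 0}.Finite := by
    have : {v : ℂ | ∃ i, c i - v * c' i = 0} ⊆ Set.range fun i => c i / c' i := by
      rintro v ⟨i, hi⟩
      refine ⟨i, ?_⟩
      have hc' : c' i ≠ 0 := by
        intro h0
        rw [h0, mul_zero, sub_zero] at hi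
        rcases hc i with h | h
        · exact h hi
        · exact h h0
      change c i / c' i = v
      rw [sub_eq_zero.1 hi]
      field_simp
    exact (Set.finite_range _).subset this
  have f2 : {v : ℂ | P - C v * Q = 0}.Finite := by
    refine Set.Subsingleton.finite fun v hv v' hv' => ?_
    have h1 : P = C v * Q := sub_eq_zero.1 hv
    have h2 : P = C v' * Q := sub_eq_zero.1 hv'
    exact C_injective (mul_right_cancel₀ hQ (h1.symm.trans h2))
  have f3 : S'.Finite := (hS.union f1).union f2
  set μ : Measure ℝ := volume.restrict (Set.Ioc 0 (2 * π)) with hμ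
  have hint : Integrable (fun θ => G (circleMap 0 1 θ)) μ := by
    have := i5
    rwa [circleIntegrable_def, intervalIntegrable_iff_integrableOn_Ioc_of_le two_pi_pos.le] at this
  have hμ0 : μ ≠ 0 := by
    intro h0
    have h1 : μ Set.univ = 0 := by rw [h0]; rfl
    rw [hμ, Measure.restrict_apply_univ, Real.volume_Ioc, ENNReal.ofReal_eq_zero] at h1
    have := two_pi_pos
    linarith
  have hN : μ (circleMap 0 1 ⁻¹' S') = 0 :=
    ((f3.countable.preimage_circleMap 0 one_ne_zero)).measure_zero _
  obtain ⟨θ, hθ, hle⟩ := exists_notMem_null_average_le hμ0 hint hN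
  have hav : ⨍ a, G (circleMap 0 1 a) ∂μ = circleAverage G 0 1 := by
    rw [circleAverage_def, hμ, intervalIntegral.integral_of_le two_pi_pos.le, setAverage_eq]
    simp [Real.volume_real_Ioc_of_le two_pi_pos.le]
  rw [hav, a1] at hle
  set v := circleMap 0 1 θ with hv
  have hvS : v ∉ S' := hθ
  have e1 : v ∉ S := fun h => hvS (Or.inl (Or.inl h))
  have e2 : ∀ i, c i - v * c' i ≠ 0 := fun i h => hvS (Or.inl (Or.inr ⟨i, h⟩))
  have e3 : P - C v * Q ≠ 0 := fun h => hvS (Or.inr h)
  refine ⟨v, by simp [hv], e1, e2, e3, hle.trans (le_of_eq ?_)⟩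
  simp only [hG, hJ]
  rw [inner_avg hQ e3, sub_add_cancel]

end Pool.Agent.Helper46.GP
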