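import Pool.Agent.Helper88.GP.VY
import Pool.Agent.Helper46.GP.AV

/-!
# Resultants of integer polynomials and squarefree parts
-/

open Polynomial

namespace Pool.Agent.Helper46.GP

open Pool.Agent.Helper40.GP Pool.Agent.Helper88.GP

lemma norm_mprod (s : Multiset ℂ) (G : ℂ → ℂ) :
    ‖(s.map G).prod‖ = (s.map fun x => ‖G x‖).prod := by
  induction s using Multiset.induction_on with
  | empty => simp
  | cons a s ih => rw [Multiset.map_cons, Multiset.prod_cons, norm_mul, ih, Multiset.map_cons,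
      Multiset.prod_cons]

/-- Nonzero integer resultants. -/
lemma int_res (F G : ℤ[X]) (hF : F ≠ 0) (n : ℕ) (hn : G.natDegree ≤ n)
    (h : ∀ x ∈ (cc F).roots, (cc G).eval x ≠ 0) :
    1 ≤ ‖(cc F).leadingCoeff‖ ^ n * ((cc F).roots.map fun x => ‖(cc G).eval x‖).prod := by
  have h1 := resultant_eq_prod_eval (cc F) (cc G) n ((natDegree_cc G).le.trans hn)
    (IsAlgClosed.splits _)
  rw [natDegree_cc] at h1
  have h2 : resultant (cc F) (cc G) F.natDegree n =
      ((resultant F G F.natDegree n : ℤ) : ℂ) := by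
    unfold cc
    rw [resultant_map_map]
    rfl
  have h3 := congrArg norm h1
  rw [h2, norm_mul, norm_pow, norm_mprod] at h3
  rw [← h3, Complex.norm_intCast]
  have h4 : resultant F G F.natDegree n ≠ 0 := by
    intro h0
    rw [h2, h0, Int.cast_zero] at h1
    have h5 := mul_eq_zero.1 h1.symm
    rcases h5 with h5 | h5
    · have h7 : (cc F).leadingCoeff = 0 := eq_zero_of_pow_eq_zero h5
      rw [lead_cc, Int.cast_eq_zero, leadingCoeff_eq_zero] at h7
      exact hF h7
    · rw [Multiset.prod_eq_zero_iff, Multiset.mem_map] at h5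
      obtain ⟨x, hx, hx0⟩ := h5
      exact h x hx hx0
  exact_mod_cast Int.one_le_abs h4

lemma v2_der {F : ℂ[X]} {d : ℕ} {z : Fin d → ℂ} (hz : Lists F z) :
    V2 z * ‖F.leadingCoeff‖ ^ d = ∏ i, ‖(derivative F).eval (z i)‖ := by
  have h1 : ∀ i, ‖(derivative F).eval (z i)‖ =
      (∏ j ∈ Finset.univ.erase i, ‖z i - z j‖) * ‖F.leadingCoeff‖ := by
    intro i
    have h2 : F = C F.leadingCoeff * ∏ j, (X - C (z j)) := hz
    have h3 : (derivative F).eval (z i) = F.leadingCoeff *
        ∏ j ∈ Finset.univ.erase i, (z i - z j) := by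
      conv_lhs => rw [h2]
      rw [derivative_C_mul, eval_mul, eval_C, derivative_prod_finset, eval_finsetSum]
      congr 1
      rw [Finset.sum_eq_single i]
      · rw [derivative_X_sub_C, mul_one, eval_prod]
        refine Finset.prod_congr rfl fun j _ => ?_
        rw [eval_sub, eval_X, eval_C]
      · intro j _ hj
        rw [eval_mul, eval_prod, Finset.prod_eq_zero (i := i)
          (Finset.mem_erase.2 ⟨hj.symm, Finset.mem_univ _⟩), zero_mul]
        rw [eval_sub, eval_X, eval_C, sub_self]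
      · intro h
        exact absurd (Finset.mem_univ i) h
    rw [h3, norm_mul, norm_prod, mul_comm]
  simp_rw [h1]
  rw [Finset.prod_mul_distrib, Finset.prod_const, Finset.card_univ, Fintype.card_fin]
  rfl

lemma prod_lists {F : ℂ[X]} (hF : F ≠ 0) {d : ℕ} {z : Fin d → ℂ} (hz : Lists F z) (G : ℂ → ℝ) :
    (F.roots.map G).prod = ∏ i, G (z i) := by
  rw [lists_roots hF hz, Multiset.map_map]
  rfl

lemma mem_lists {F : ℂ[X]} (hF : F ≠ 0) {d : ℕ} {z : Fin d → ℂ} (hz : Lists F z) {x : ℂ} :
    x ∈ F.roots ↔ ∃ i, z i = x := by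
  rw [lists_roots hF hz]
  simp

lemma cc_ne {F : ℤ[X]} (hF : F ≠ 0) : cc F ≠ 0 :=
  (Polynomial.map_ne_zero_iff cc_inj).2 hF

/-- The discriminant of a separable integer polynomial. -/
lemma v2_ge (F : ℤ[X]) (hF : F ≠ 0) (hs : (cc F).Separable) {d : ℕ} (hd : F.natDegree = d)
    {z : Fin d → ℂ} (hz : Lists (cc F) z) :
    1 ≤ ‖(cc F).leadingCoeff‖ ^ (d - 1 + d) * V2 z := by
  have h1 := int_res F (derivative F) hF (d - 1) (by
    have := natDegree_derivative_le F
    omega) (by
    intro x hx h0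
    obtain ⟨u, w, huw⟩ := hs
    have h3 := congrArg (eval x) huw
    have h4 : (cc F).eval x = 0 := (mem_roots'.1 hx).2
    have h5 : (derivative (cc F)).eval x = 0 := by
      unfold cc at h0 ⊢
      rwa [derivative_map]
    rw [eval_add, eval_mul, eval_mul, h4, h5, mul_zero, mul_zero, add_zero, eval_one] at h3
    exact zero_ne_one h3)
  rw [prod_lists (cc_ne hF) hz] at h1
  have h2 : ∀ i, (cc (derivative F)).eval (z i) = (derivative (cc F)).eval (z i) := by
    intro i
    unfold cc
    rw [derivative_map]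
  simp_rw [h2] at h1
  rw [← v2_der hz] at h1
  calc (1 : ℝ) ≤ _ := h1
    _ = _ := by rw [pow_add]; ring

lemma exists_lists (F : ℂ[X]) {d : ℕ} (hd : F.natDegree = d) : ∃ z : Fin d → ℂ, Helper40.GP.Lists F z := by
  have h1 := (IsAlgClosed.splits F).natDegree_eq_card_roots
  have h2 : F.roots.toList.length = d := by rw [Multiset.length_toList, ← h1, hd]
  subst h2
  refine ⟨fun i => F.roots.toList[i.1], ?_⟩
  unfold Helper40.GP.Lists
  have h3 := (IsAlgClosed.splits F).eq_prod_roots
  conv_lhs => rw [h3]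
  congr 1
  rw [Fin.prod_univ_fun_getElem F.roots.toList (fun a => X - C a), ← Multiset.prod_coe,
    ← Multiset.map_coe, Multiset.coe_toList]

/-- A primitive integer multiple of a rational polynomial. -/
lemma exists_prim (q : ℚ[X]) (hq : q ≠ 0) : ∃ p : ℤ[X], p.IsPrimitive ∧
    p.natDegree = q.natDegree ∧ p.map (Int.castRingHom ℚ) ∣ q := by
  obtain ⟨b, hbm, hb⟩ := IsLocalization.integerNormalization_spec (nonZeroDivisors ℤ) q
  set p' := IsLocalization.integerNormalization (nonZeroDivisors ℤ) q with hp'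
  have hb0 : (b : ℤ) ≠ 0 := nonZeroDivisors.ne_zero hbm
  have e1 : algebraMap ℤ ℚ = Int.castRingHom ℚ := rfl
  have e2 : p'.map (Int.castRingHom ℚ) = C ((b : ℤ) : ℚ) * q := by
    rw [← e1, hb]
    ext i
    simp
  have hbq : (((b : ℤ) : ℚ)) ≠ 0 := Int.cast_ne_zero.2 hb0
  have hp0 : p' ≠ 0 := by
    intro h0
    rw [h0, Polynomial.map_zero] at e2
    exact mul_ne_zero (C_ne_zero.2 hbq) hq e2.symm
  have e3 := p'.eq_C_content_mul_primPart
  refine ⟨p'.primPart, p'.isPrimitive_primPart, ?_, ?_⟩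
  · rw [natDegree_primPart]
    have h1 := congrArg natDegree e2
    rw [natDegree_map_eq_of_injective Int.cast_injective, natDegree_C_mul hbq] at h1
    exact h1
  · have h1 : p'.primPart.map (Int.castRingHom ℚ) ∣ C ((b : ℤ) : ℚ) * q := by
      rw [← e2]
      conv_rhs => rw [e3]
      rw [Polynomial.map_mul]
      exact dvd_mul_left _ _
    have h2 : q = C (((b : ℤ) : ℚ))⁻¹ * (C ((b : ℤ) : ℚ) * q) := by
      rw [← mul_assoc, ← C_mul, inv_mul_cancel₀ hbq, C_1, one_mul]
    rw [h2]
    exact h1.mul_left _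

/-- Squarefree parts. -/
lemma sqf : ∀ (m : ℕ) (D : ℤ[X]), D ≠ 0 → D.natDegree ≤ m → ∃ D0 E : ℤ[X], D = D0 * E ∧
    (cc D0).Separable ∧ ∀ x : ℂ, (cc D).eval x = 0 → (cc D0).eval x = 0 := by
  intro m
  induction m with
  | zero =>
    intro D hD hm
    refine ⟨D, 1, (mul_one D).symm, ?_, fun x hx => hx⟩
    have h1 : cc D ≠ 0 := cc_ne hD
    have h2 : (cc D).natDegree = 0 := by rw [natDegree_cc]; omega
    have h3 : IsUnit (cc D) := by
      rw [Polynomial.isUnit_iff_degree_eq_zero, degree_eq_natDegree h1, h2]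
      rfl
    exact PerfectField.separable_iff_squarefree.2 h3.squarefree
  | succ m ih =>
    intro D hD hm
    by_cases hs : (cc D).Separable
    · exact ⟨D, 1, (mul_one D).symm, hs, fun x hx => hx⟩
    have hq : ¬ Squarefree (D.map (Int.castRingHom ℚ)) := by
      intro h
      apply hs
      have h1 := (PerfectField.separable_iff_squarefree.2 h).map (f := algebraMap ℚ ℂ)
      rw [Polynomial.map_map] at h1
      have e : (algebraMap ℚ ℂ).comp (Int.castRingHom ℚ) = Int.castRingHom ℂ :=
        RingHom.ext_int _ _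
      rwa [e] at h1
    unfold Squarefree at hq
    push Not at hq
    obtain ⟨q, hqd, hqu⟩ := hq
    have hDq : D.map (Int.castRingHom ℚ) ≠ 0 :=
      (Polynomial.map_ne_zero_iff Int.cast_injective).2 hD
    have hq0 : q ≠ 0 := by
      rintro rfl
      rw [mul_zero, zero_dvd_iff] at hqd
      exact hDq hqd
    obtain ⟨p, hp, hpd, hpq⟩ := exists_prim q hq0
    have hp1 : 1 ≤ p.natDegree := by
      rw [hpd]
      by_contra h
      apply hqu
      rw [Polynomial.isUnit_iff_degree_eq_zero, degree_eq_natDegree hq0]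
      have : q.natDegree = 0 := by omega
      rw [this]
      rfl
    have h1 : (p * p) ∣ D := by
      rw [IsPrimitive.Int.dvd_iff_map_cast_dvd_map_cast _ _ (hp.mul hp), Polynomial.map_mul]
      exact (mul_dvd_mul hpq hpq).trans hqd
    obtain ⟨r, hr⟩ := h1
    have hpr : p * r ≠ 0 := by
      intro h0
      apply hD
      rw [hr, mul_assoc, h0, mul_zero]
    have hp0 : p ≠ 0 := left_ne_zero_of_mul hpr
    have hdeg : D.natDegree = p.natDegree + (p * r).natDegree := by
      rw [hr, mul_assoc, natDegree_mul hp0 hpr]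
    obtain ⟨D0, E, h5, h6, h7⟩ := ih (p * r) hpr (by omega)
    refine ⟨D0, p * E, ?_, h6, fun x hx => h7 x ?_⟩
    · rw [hr, mul_assoc, h5]
      ring
    · rw [hr] at hx
      unfold cc at hx ⊢
      rw [Polynomial.map_mul, Polynomial.map_mul, eval_mul, eval_mul] at hx
      rw [Polynomial.map_mul, eval_mul]
      rcases mul_eq_zero.1 hx with h | h
      · rcases mul_eq_zero.1 h with h | h <;> rw [h, zero_mul]
      · rw [h, mul_zero]

end Pool.Agent.Helper46.GP
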