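import Pool.Agent.Helper46.GP.RO1

/-!
# The zeros of `f` are not close to the zeros of `A` and `A^*`
-/

open Polynomial

namespace Pool.Agent.Helper46.GP

open Pool.Agent.Helper40.GP Pool.Agent.Helper88.GP

lemma mm_nonneg {F : ℤ[X]} (hF : F ≠ 0) : 0 ≤ Real.log (cc F).mahlerMeasure :=
  Real.log_nonneg (one_le_mahlerMeasure_of_ne_zero hF)

lemma mm_lists {F : ℤ[X]} (hF : F ≠ 0) {d : ℕ} {z : Fin d → ℂ} (hz : Lists (cc F) z) :
    (cc F).mahlerMeasure = ‖(cc F).leadingCoeff‖ * ∏ i, max 1 ‖z i‖ := by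
  rw [mahlerMeasure_eq_leadingCoeff_mul_prod_roots, prod_lists (cc_ne hF) hz]

lemma lead_ge {F : ℤ[X]} (hF : F ≠ 0) : 1 ≤ ‖(cc F).leadingCoeff‖ := by
  rw [lead_cc, Complex.norm_intCast]
  exact_mod_cast Int.one_le_abs (leadingCoeff_ne_zero.2 hF)

/-- The key inequality for a separable polynomial. -/
lemma key_prod (hDD : S_DD) {f D : ℤ[X]} {d a : ℕ} (hf : f.natDegree = d)
    (hD : D.natDegree = a) (hf0 : f ≠ 0) (hD0 : D ≠ 0) (hl : ‖(cc f).leadingCoeff‖ = 1)
    (hsf : (cc f).Separable) (hsD : (cc D).Separable)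
    (hcop : ∀ x, (cc f).eval x = 0 → (cc D).eval x ≠ 0)
    {z : Fin d → ℂ} {x : Fin a → ℂ} (hz : Lists (cc f) z) (hx : Lists (cc D) x)
    (g : Fin d → Fin a) (T : Finset (Fin d))
    (hT : ∀ i ∈ T, ‖z i - x (g i)‖ * (d + a : ℕ) ≤ 1) :
    1 ≤ ((d + a).factorial : ℝ) * (∏ i ∈ T, ‖z i - x (g i)‖) * (3 * (d + a : ℕ) : ℝ) ^ d *
      (cc f).mahlerMeasure ^ (d + a) * (cc D).mahlerMeasure ^ (d + a) := by
  have hzr : ∀ i, (cc f).eval (z i) = 0 := fun i =>
    (mem_roots (cc_ne hf0)).1 ((mem_lists (cc_ne hf0) hz).2 ⟨i, rfl⟩)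
  have hxr : ∀ j, (cc D).eval (x j) = 0 := fun j =>
    (mem_roots (cc_ne hD0)).1 ((mem_lists (cc_ne hD0) hx).2 ⟨j, rfl⟩)
  have hne : ∀ i j, z i ≠ x j := by
    intro i j h
    apply hcop (z i) (hzr i)
    rw [h]
    exact hxr j
  have h1 := hDD d a z x g T (fun i _ => hne i _) hT
  have h2 := v2_ge f hf0 hsf hf hz
  rw [hl, one_pow, one_mul] at h2
  have h3 := v2_ge D hD0 hsD hD hx
  have h4 : 1 ≤ ‖(cc D).leadingCoeff‖ ^ d * ∏ i, ∏ j, ‖z i - x j‖ := by
    have h5 := int_res f D hf0 D.natDegree le_rfl (fun y hy => hcop y (mem_roots'.1 hy).2)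
    rw [hl, one_pow, one_mul, prod_lists (cc_ne hf0) hz] at h5
    have h6 : ∀ i, ‖(cc D).eval (z i)‖ = ‖(cc D).leadingCoeff‖ * ∏ j, ‖z i - x j‖ := by
      intro i
      have h7 : cc D = C (cc D).leadingCoeff * ∏ j, (X - C (x j)) := hx
      conv_lhs => rw [h7]
      rw [eval_mul, eval_C, norm_mul, eval_prod, norm_prod]
      congr 1
      refine Finset.prod_congr rfl fun j _ => ?_
      rw [eval_sub, eval_X, eval_C]
    simp_rw [h6] at h5
    rwa [Finset.prod_mul_distrib, Finset.prod_const, Finset.card_univ, Fintype.card_fin] at h5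
  have h8 := mm_lists hf0 hz
  rw [hl, one_mul] at h8
  have h9 := mm_lists hD0 hx
  have hl1 := lead_ge hD0
  set l := ‖(cc D).leadingCoeff‖ with hl'
  set Pz := ∏ i, max 1 ‖z i‖ with hPz
  set Px := ∏ j, max 1 ‖x j‖ with hPx
  set PP := ∏ i, ∏ j, ‖z i - x j‖ with hPP
  set PT := ∏ i ∈ T, ‖z i - x (g i)‖ with hPT
  have hPP0 : 0 ≤ PP := Finset.prod_nonneg fun i _ => Finset.prod_nonneg fun j _ => norm_nonneg _
  have hPT0 : 0 ≤ PT := Finset.prod_nonneg fun i _ => norm_nonneg _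
  have hPz0 : 0 ≤ Pz := Finset.prod_nonneg fun i _ => le_max_of_le_left zero_le_one
  have hPx0 : 0 ≤ Px := Finset.prod_nonneg fun i _ => le_max_of_le_left zero_le_one
  have hVz : 0 ≤ V2 z := by linarith
  have hl0 : (0 : ℝ) < l := by linarith
  have hVx : 0 ≤ V2 x := by
    by_contra hneg
    have hpos : 0 < l ^ (a - 1 + a) := by positivity
    nlinarith [mul_neg_of_pos_of_neg hpos (not_le.1 hneg)]
  -- the product of the lower bounds
  have e1 : 1 ≤ l ^ (a - 1 + a) * V2 x * (V2 z * (l ^ d * PP) ^ 2) := by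
    have k1 : (1 : ℝ) ≤ (l ^ d * PP) ^ 2 := one_le_pow₀ h4
    have k2 : (1 : ℝ) ≤ V2 z * (l ^ d * PP) ^ 2 := one_le_mul_of_one_le_of_one_le h2 k1
    exact one_le_mul_of_one_le_of_one_le h3 k2
  have e2 : l ^ (a - 1 + a) * V2 x * (V2 z * (l ^ d * PP) ^ 2) =
      l ^ (a - 1 + a + 2 * d) * (V2 z * V2 x * PP ^ 2) := by
    rw [pow_add l (a - 1 + a) (2 * d), mul_pow, ← pow_mul, mul_comm d 2]
    ring
  have e3 : l ^ (a - 1 + a + 2 * d) * (V2 z * V2 x * PP ^ 2) ≤
      l ^ (2 * (d + a)) * (((d + a).factorial : ℝ) ^ 2 * PT ^ 2 * (3 * (d + a : ℕ) : ℝ) ^ (2 * d) *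
      Pz ^ (2 * (d + a)) * Px ^ (2 * (d + a))) := by
    apply mul_le_mul _ h1 (by positivity) (by positivity)
    exact pow_le_pow_right₀ hl1 (by omega)
  have e4 : l ^ (2 * (d + a)) * (((d + a).factorial : ℝ) ^ 2 * PT ^ 2 *
      (3 * (d + a : ℕ) : ℝ) ^ (2 * d) * Pz ^ (2 * (d + a)) * Px ^ (2 * (d + a))) =
      (((d + a).factorial : ℝ) * PT * (3 * (d + a : ℕ) : ℝ) ^ d *
      Pz ^ (d + a) * (l * Px) ^ (d + a)) ^ 2 := by
    ring
  rw [h8, h9]
  have e5 : 1 ≤ (((d + a).factorial : ℝ) * PT * (3 * (d + a : ℕ) : ℝ) ^ d *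
      Pz ^ (d + a) * (l * Px) ^ (d + a)) ^ 2 := by
    rw [← e4]
    exact e1.trans (e2.le.trans e3)
  exact (one_le_sq_iff₀ (by positivity)).1 e5

/-- The distances of the zeros of `f` to the zeros of `D`. -/
lemma ro1 (hDD : S_DD) (f D : ℤ[X]) (d m : ℕ) (hf : f.natDegree = d) (hf0 : f ≠ 0)
    (hl : ‖(cc f).leadingCoeff‖ = 1) (hsf : (cc f).Separable) (hD1 : 1 ≤ D.natDegree)
    (hDd : D.natDegree ≤ m) (hdm : d ≤ m) (hcop : ∀ x, (cc f).eval x = 0 → (cc D).eval x ≠ 0)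
    {z : Fin d → ℂ} (hz : Lists (cc f) z) :
    ∃ ρ : Fin d → ℝ, (∀ i, 0 < ρ i) ∧ (∀ i, ρ i ≤ 1) ∧
      (∀ i, ∀ x ∈ (cc D).roots, ρ i ≤ ‖z i - x‖) ∧
      ∑ i, Real.log (1 / ρ i) ≤ 4 * m * Real.log (6 * m) +
        2 * m * (Real.log (cc f).mahlerMeasure + Real.log (cc D).mahlerMeasure) := by
  have hD0 : D ≠ 0 := by
    rintro rfl
    simp at hD1
  obtain ⟨D0, E, hDE, hsD, hroot⟩ := sqf _ D hD0 le_rfl
  have hD00 : D0 ≠ 0 := by
    rintro rfl
    rw [zero_mul] at hDE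
    exact hD0 hDE
  have hE0 : E ≠ 0 := by
    rintro rfl
    rw [mul_zero] at hDE
    exact hD0 hDE
  have hdd : D0.natDegree ≤ D.natDegree := by
    rw [hDE, natDegree_mul hD00 hE0]
    omega
  have hdiv : ∀ x, (cc D0).eval x = 0 → (cc D).eval x = 0 := by
    intro x hx
    unfold cc at hx ⊢
    rw [hDE, Polynomial.map_mul, eval_mul, hx, zero_mul]
  obtain ⟨a, ha⟩ : ∃ a, a = D0.natDegree := ⟨_, rfl⟩
  obtain ⟨x, hx⟩ := exists_lists (cc D0) (d := a) ((natDegree_cc D0).trans ha.symm)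
  rw [← ha] at hdd
  have hd1 : 1 ≤ m := hD1.trans hDd
  -- `D0` has a zero
  have ha1 : 1 ≤ a := by
    have h1 : 0 < (cc D).degree := by
      rw [← natDegree_pos_iff_degree_pos, natDegree_cc]
      omega
    obtain ⟨y, hy⟩ := IsAlgClosed.exists_root (cc D) h1.ne'
    have h2 : y ∈ (cc D0).roots := (mem_roots (cc_ne hD00)).2 (hroot y hy)
    obtain ⟨j, -⟩ := (mem_lists (cc_ne hD00) hx).1 h2
    have := j.2
    omega
  have hne : Nonempty (Fin a) := ⟨⟨0, ha1⟩⟩
  have hmin : ∀ i, ∃ j, ∀ j', ‖z i - x j‖ ≤ ‖z i - x j'‖ := fun i =>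
    Finite.exists_min fun j => ‖z i - x j‖
  choose g hg using hmin
  have hzr : ∀ i, (cc f).eval (z i) = 0 := fun i =>
    (mem_roots (cc_ne hf0)).1 ((mem_lists (cc_ne hf0) hz).2 ⟨i, rfl⟩)
  have hxr : ∀ j, (cc D0).eval (x j) = 0 := fun j =>
    (mem_roots (cc_ne hD00)).1 ((mem_lists (cc_ne hD00) hx).2 ⟨j, rfl⟩)
  have hcop0 : ∀ y, (cc f).eval y = 0 → (cc D0).eval y ≠ 0 := fun y hy h0 =>
    hcop y hy (hdiv y h0)
  have hpos : ∀ i, 0 < ‖z i - x (g i)‖ := by
    intro i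
    rw [norm_pos_iff, sub_ne_zero]
    intro h
    apply hcop0 (z i) (hzr i)
    rw [h]
    exact hxr _
  set T : Finset (Fin d) := Finset.univ.filter fun i => ‖z i - x (g i)‖ * (d + a : ℕ) ≤ 1 with hT
  have hkey := key_prod hDD hf ha.symm hf0 hD00 hl hsf hsD hcop0 hz hx g T
    (fun i hi => (Finset.mem_filter.1 hi).2)
  have hdR : (1 : ℝ) ≤ m := by exact_mod_cast hd1
  have had : (a : ℝ) ≤ m := by exact_mod_cast (hdd.trans hDd)
  have hdmR : (d : ℝ) ≤ m := by exact_mod_cast hdm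
  have hN1 : (1 : ℝ) ≤ ((d + a : ℕ) : ℝ) := by exact_mod_cast (by omega : 1 ≤ d + a)
  have hN2 : ((d + a : ℕ) : ℝ) ≤ 2 * m := by push_cast; linarith
  have hMf := mm_nonneg hf0
  have hMD0 := mm_nonneg hD00
  have hME := mm_nonneg hE0
  have hMD : Real.log (cc D).mahlerMeasure =
      Real.log (cc D0).mahlerMeasure + Real.log (cc E).mahlerMeasure := by
    have h1 : cc D = cc D0 * cc E := by
      unfold cc
      rw [hDE, Polynomial.map_mul]
    rw [h1, mahlerMeasure_mul, Real.log_mul]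
    · exact (mahlerMeasure_pos_of_ne_zero (cc_ne hD00)).ne'
    · exact (mahlerMeasure_pos_of_ne_zero (cc_ne hE0)).ne'
  have hlog60 : 0 ≤ Real.log (6 * m) := Real.log_nonneg (by linarith)
  have hlogN : Real.log ((d + a : ℕ) : ℝ) ≤ Real.log (6 * m) :=
    Real.log_le_log (by linarith) (by linarith)
  have hlogN0 : 0 ≤ Real.log ((d + a : ℕ) : ℝ) := Real.log_nonneg hN1
  -- logarithm of the key inequality
  have hlogk : 0 ≤ Real.log ((d + a).factorial : ℝ) + ∑ i ∈ T, Real.log ‖z i - x (g i)‖ +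
      d * Real.log (3 * (d + a : ℕ) : ℝ) + (d + a : ℕ) * Real.log (cc f).mahlerMeasure +
      (d + a : ℕ) * Real.log (cc D0).mahlerMeasure := by
    have h1 := Real.log_nonneg hkey
    have p1 : (((d + a).factorial : ℕ) : ℝ) ≠ 0 := by positivity
    have p2 : (∏ i ∈ T, ‖z i - x (g i)‖) ≠ 0 := Finset.prod_ne_zero_iff.2 fun i _ => (hpos i).ne'
    have p3 : (3 * (d + a : ℕ) : ℝ) ^ d ≠ 0 := by positivity
    have p4 : (cc f).mahlerMeasure ^ (d + a) ≠ 0 :=
      pow_ne_zero _ (mahlerMeasure_pos_of_ne_zero (cc_ne hf0)).ne'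
    have p5 : (cc D0).mahlerMeasure ^ (d + a) ≠ 0 :=
      pow_ne_zero _ (mahlerMeasure_pos_of_ne_zero (cc_ne hD00)).ne'
    rw [Real.log_mul (mul_ne_zero (mul_ne_zero (mul_ne_zero p1 p2) p3) p4) p5,
      Real.log_mul (mul_ne_zero (mul_ne_zero p1 p2) p3) p4,
      Real.log_mul (mul_ne_zero p1 p2) p3, Real.log_mul p1 p2,
      Real.log_prod (fun i _ => (hpos i).ne'), Real.log_pow, Real.log_pow, Real.log_pow] at h1
    exact h1
  have hfac : Real.log ((d + a).factorial : ℝ) ≤ 2 * m * Real.log (6 * m) := by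
    have h1 : ((d + a).factorial : ℝ) ≤ ((d + a : ℕ) : ℝ) ^ (d + a) := by
      exact_mod_cast Nat.factorial_le_pow (d + a)
    have h2 := Real.log_le_log (by positivity) h1
    rw [Real.log_pow] at h2
    calc _ ≤ _ := h2
      _ ≤ (2 * m) * Real.log (6 * m) := mul_le_mul hN2 hlogN hlogN0 (by linarith)
  have h3N : Real.log (3 * (d + a : ℕ) : ℝ) ≤ Real.log (6 * m) :=
    Real.log_le_log (by linarith) (by linarith)
  refine ⟨fun i => min 1 ‖z i - x (g i)‖, fun i => lt_min one_pos (hpos i),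
    fun i => min_le_left _ _, ?_, ?_⟩
  · intro i y hy
    have h1 : y ∈ (cc D0).roots :=
      (mem_roots (cc_ne hD00)).2 (hroot y (mem_roots'.1 hy).2)
    obtain ⟨j, rfl⟩ := (mem_lists (cc_ne hD00) hx).1 h1
    exact (min_le_right _ _).trans (hg i j)
  · have hb : ∀ i, Real.log (1 / min 1 ‖z i - x (g i)‖) ≤
        (if i ∈ T then -Real.log ‖z i - x (g i)‖ else 0) + Real.log ((d + a : ℕ) : ℝ) := by
      intro i
      have hm : 0 < min 1 ‖z i - x (g i)‖ := lt_min one_pos (hpos i)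
      rw [one_div, Real.log_inv]
      split_ifs with hi
      · have h1 := (Finset.mem_filter.1 hi).2
        have h2 : ‖z i - x (g i)‖ ≤ 1 := by
          nlinarith [hpos i]
        rw [min_eq_right h2]
        linarith
      · have h1 : ¬ (‖z i - x (g i)‖ * (d + a : ℕ) ≤ 1) := fun h =>
          hi (Finset.mem_filter.2 ⟨Finset.mem_univ _, h⟩)
        push Not at h1
        rw [zero_add, ← Real.log_inv]
        apply Real.log_le_log (inv_pos.2 hm)
        rw [inv_le_comm₀ hm (by linarith)]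
        apply le_min
        · exact inv_le_one_of_one_le₀ hN1
        · rw [inv_le_iff_one_le_mul₀ (by linarith)]
          exact h1.le
    have hsum : ∑ i, Real.log (1 / min 1 ‖z i - x (g i)‖) ≤
        -∑ i ∈ T, Real.log ‖z i - x (g i)‖ + d * Real.log ((d + a : ℕ) : ℝ) := by
      refine (Finset.sum_le_sum fun i _ => hb i).trans (le_of_eq ?_)
      rw [Finset.sum_add_distrib, Finset.sum_const, Finset.card_univ, Fintype.card_fin,
        nsmul_eq_mul, Finset.sum_ite_mem, Finset.univ_inter, Finset.sum_neg_distrib]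
    have hd0 : (0 : ℝ) ≤ d := Nat.cast_nonneg d
    have q1 : (d : ℝ) * Real.log ((d + a : ℕ) : ℝ) ≤ m * Real.log (6 * m) :=
      mul_le_mul hdmR hlogN hlogN0 (by linarith)
    have q2 : (d : ℝ) * Real.log (3 * (d + a : ℕ) : ℝ) ≤ m * Real.log (6 * m) :=
      mul_le_mul hdmR h3N (Real.log_nonneg (by linarith)) (by linarith)
    have q3 : ((d + a : ℕ) : ℝ) * Real.log (cc f).mahlerMeasure ≤
        2 * m * Real.log (cc f).mahlerMeasure := mul_le_mul_of_nonneg_right hN2 hMf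
    have q4 : ((d + a : ℕ) : ℝ) * Real.log (cc D0).mahlerMeasure ≤
        2 * m * Real.log (cc D).mahlerMeasure := by
      refine (mul_le_mul_of_nonneg_right hN2 hMD0).trans ?_
      exact mul_le_mul_of_nonneg_left (by linarith) (by linarith)
    linarith

lemma norm_rev (A : ℤ[X]) (x : ℂ) (hx : ‖x‖ = 1) :
    ‖(cc A).eval x‖ = ‖(cc A.reverse).eval x‖ := by
  have hx0 : x ≠ 0 := by
    rintro rfl
    simp at hx
  let _ := invertibleOfNonzero hx0
  have h1 := eval₂_reverse_mul_pow (Int.castRingHom ℂ) x A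
  have h2 : ⅟x = (starRingEnd ℂ) x := by
    rw [invOf_eq_inv, Complex.inv_def, Complex.normSq_eq_norm_sq, hx]
    simp
  rw [h2] at h1
  have h3 : (starRingEnd ℂ) (eval₂ (Int.castRingHom ℂ) x A.reverse) =
      eval₂ (Int.castRingHom ℂ) ((starRingEnd ℂ) x) A.reverse := by
    rw [hom_eval₂]
    congr 1
    exact RingHom.ext_int _ _
  have h4 := congrArg norm h1
  rw [norm_mul, norm_pow, hx, one_pow, mul_one, ← h3, Complex.norm_conj] at h4
  unfold cc
  rw [eval_map, eval_map, h4]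

lemma mm_rev {A : ℤ[X]} (hA : A ≠ 0) : Real.log (cc A.reverse).mahlerMeasure =
    Real.log (cc A).mahlerMeasure :=
  (mm_eq (cc_ne hA) (norm_rev A)).2

/-- The zeros of `f` are not close to the zeros of `A` and `A^*`. -/
theorem ro (hDD : S_DD) : S_RO := by
  intro A s n hA hs hn hsep
  set a := A.natDegree with ha
  have hs0 : s ≠ 0 := by
    rcases hs with rfl | rfl <;> decide
  have hA0 : A ≠ 0 := by
    rintro rfl
    have := hA.deg
    simp at this
  have hA00 : A.coeff 0 ≠ 0 := by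
    intro h1
    have := hA.const
    rw [h1, abs_zero] at this
    exact zero_ne_one this
  have hB0 : A.reverse ≠ 0 := by
    rwa [Ne, reverse_eq_zero]
  have hBd : A.reverse.natDegree = a := natDegree_rev hA
  have hg1 : (C s * X ^ n * A.reverse).natDegree = n + a := by
    rw [mul_assoc, natDegree_C_mul hs0, mul_comm, natDegree_mul_X_pow n hB0, hBd, add_comm]
  have hdeg : (gp A s n).natDegree = n + a := by
    unfold gp
    rw [natDegree_add_eq_right_of_natDegree_lt, hg1]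
    rw [hg1]
    omega
  have hlead : (gp A s n).leadingCoeff = s * A.coeff 0 := by
    unfold gp
    rw [leadingCoeff_add_of_degree_lt, leadingCoeff_mul, leadingCoeff_mul, leadingCoeff_C,
      leadingCoeff_X_pow, mul_one, lead_rev hA]
    apply degree_lt_degree
    rw [hg1]
    omega
  have hf0 : gp A s n ≠ 0 := by
    intro h0
    rw [h0, leadingCoeff_zero] at hlead
    exact mul_ne_zero hs0 hA00 hlead.symm
  have hl : ‖(cc (gp A s n)).leadingCoeff‖ = 1 := by
    rw [lead_cc, hlead, Complex.norm_intCast]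
    have : |s * A.coeff 0| = 1 := by
      rw [abs_mul, hA.const]
      rcases hs with rfl | rfl <;> rfl
    exact_mod_cast this
  have hev : ∀ x, (cc (gp A s n)).eval x = (cc A).eval x + s * x ^ n * (cc A.reverse).eval x := by
    intro x
    unfold cc gp
    simp
  have hc1 : ∀ x, (cc (gp A s n)).eval x = 0 → (cc A).eval x ≠ 0 := by
    intro x hx h0
    rw [hev, h0, zero_add] at hx
    rcases mul_eq_zero.1 hx with h | h
    · rcases mul_eq_zero.1 h with h | h
      · exact hs0 (by exact_mod_cast h)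
      · have hx0 : x = 0 := eq_zero_of_pow_eq_zero h
        rw [hx0] at h0
        unfold cc at h0
        rw [← coeff_zero_eq_eval_zero, coeff_map] at h0
        exact hA00 (by simpa using h0)
    · exact not_both hA x ⟨h0, h⟩
  have hc2 : ∀ x, (cc (gp A s n)).eval x = 0 → (cc A.reverse).eval x ≠ 0 := by
    intro x hx h0
    rw [hev, h0, mul_zero, add_zero] at hx
    exact not_both hA x ⟨hx, h0⟩
  obtain ⟨z, hz⟩ := exists_lists (cc (gp A s n)) (d := n + a) (by rw [natDegree_cc, hdeg])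
  have hV := v2_ge (gp A s n) hf0 hsep hdeg hz
  rw [hl, one_pow, one_mul] at hV
  obtain ⟨ρ1, h1, h2, h3, h4⟩ := ro1 hDD (gp A s n) A (n + a) (n + a) hdeg hf0 hl hsep hA.deg
    (by omega) le_rfl hc1 hz
  obtain ⟨ρ2, h5, h6, h7, h8⟩ := ro1 hDD (gp A s n) A.reverse (n + a) (n + a) hdeg hf0 hl
    hsep (by rw [hBd]; exact hA.deg) (by omega) le_rfl hc2 hz
  rw [mm_rev hA0] at h8
  refine ⟨z, fun i => min (ρ1 i) (ρ2 i), hz, hV, fun i => lt_min (h1 i) (h5 i),
    fun i => (min_le_left _ _).trans (h2 i), fun i x hx => (min_le_left _ _).trans (h3 i x hx),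
    fun i x hx => (min_le_right _ _).trans (h7 i x hx), ?_⟩
  have hb : ∀ i, Real.log (1 / min (ρ1 i) (ρ2 i)) ≤ Real.log (1 / ρ1 i) + Real.log (1 / ρ2 i) := by
    intro i
    have l1 : 0 ≤ Real.log (1 / ρ1 i) :=
      Real.log_nonneg ((one_le_div (h1 i)).2 (h2 i))
    have l2 : 0 ≤ Real.log (1 / ρ2 i) :=
      Real.log_nonneg ((one_le_div (h5 i)).2 (h6 i))
    rcases min_choice (ρ1 i) (ρ2 i) with h | h <;> rw [h] <;> linarith
  refine (Finset.sum_le_sum fun i _ => hb i).trans ?_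
  rw [Finset.sum_add_distrib]
  linarith

end Pool.Agent.Helper46.GP
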