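import Pool.Agent.Helper40.GP.Stm2
import Pool.Agent.Helper46.GP.RO

/-!
# The distinct zeros of `f = A + s X ^ n A^*`
-/

open Polynomial

namespace Pool.Agent.Helper46.GP

open Pool.Agent.Helper40.GP Pool.Agent.Helper88.GP

section gpl

variable {A : ℤ[X]} {s : ℤ} {n : ℕ}

lemma s_ne (hs : s = 1 ∨ s = -1) : s ≠ 0 := by
  rcases hs with rfl | rfl <;> decide

lemma c0_ne (hA : Good A) : A.coeff 0 ≠ 0 := by
  intro h1
  have := hA.const
  rw [h1, abs_zero] at this
  exact zero_ne_one this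

lemma good_ne (hA : Good A) : A ≠ 0 := by
  rintro rfl
  have := hA.deg
  simp at this

lemma gp_eval (x : ℂ) : (cc (gp A s n)).eval x =
    (cc A).eval x + s * x ^ n * (cc A.reverse).eval x := by
  unfold cc gp
  simp

lemma gp_lead (hA : Good A) (hs : s = 1 ∨ s = -1) (hn : A.natDegree < n) :
    (gp A s n).leadingCoeff = s * A.coeff 0 := by
  have hB0 : A.reverse ≠ 0 := by
    rw [Ne, reverse_eq_zero]
    exact good_ne hA
  have hg1 : (C s * X ^ n * A.reverse).natDegree = n + A.natDegree := by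
    rw [mul_assoc, natDegree_C_mul (s_ne hs), mul_comm, natDegree_mul_X_pow n hB0,
      natDegree_rev hA, add_comm]
  unfold gp
  rw [leadingCoeff_add_of_degree_lt, leadingCoeff_mul, leadingCoeff_mul, leadingCoeff_C,
    leadingCoeff_X_pow, mul_one, lead_rev hA]
  apply degree_lt_degree
  rw [hg1]
  omega

lemma gp_ne (hA : Good A) (hs : s = 1 ∨ s = -1) (hn : A.natDegree < n) : gp A s n ≠ 0 := by
  intro h0
  have h1 := gp_lead hA hs hn
  rw [h0, leadingCoeff_zero] at h1
  exact mul_ne_zero (s_ne hs) (c0_ne hA) h1.symm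

lemma gp_A (hA : Good A) (hs : s = 1 ∨ s = -1) (x : ℂ) (hx : (cc (gp A s n)).eval x = 0) :
    (cc A).eval x ≠ 0 := by
  intro h0
  rw [gp_eval, h0, zero_add] at hx
  rcases mul_eq_zero.1 hx with h | h
  · rcases mul_eq_zero.1 h with h | h
    · exact s_ne hs (by exact_mod_cast h)
    · have hx0 : x = 0 := eq_zero_of_pow_eq_zero h
      rw [hx0] at h0
      unfold cc at h0
      rw [← coeff_zero_eq_eval_zero, coeff_map] at h0
      exact c0_ne hA (by simpa using h0)
  · exact not_both hA x ⟨h0, h⟩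

lemma gp_B (hA : Good A) (x : ℂ) (hx : (cc (gp A s n)).eval x = 0) :
    (cc A.reverse).eval x ≠ 0 := by
  intro h0
  rw [gp_eval, h0, mul_zero, add_zero] at hx
  exact not_both hA x ⟨hx, h0⟩

/-- The values at the zeros of `f`. -/
lemma gp_HH (hs : s = 1 ∨ s = -1) (x : ℂ) (hx : (cc (gp A s n)).eval x = 0) :
    HH A x = ‖(cc A.reverse).eval x‖ * (max 1 ‖x‖) ^ n := by
  have h1 : ‖(cc A).eval x‖ = ‖x‖ ^ n * ‖(cc A.reverse).eval x‖ := by
    rw [gp_eval] at hx
    have h2 : (cc A).eval x = -(s * x ^ n * (cc A.reverse).eval x) := eq_neg_of_add_eq_zero_left hx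
    have h3 : ‖(s : ℂ)‖ = 1 := by
      rcases hs with rfl | rfl <;> simp
    rw [h2, norm_neg, norm_mul, norm_mul, norm_pow, h3, one_mul]
  unfold HH
  rw [h1]
  rcases le_total ‖x‖ 1 with h | h
  · rw [max_eq_left h, one_pow, mul_one, max_eq_right]
    exact mul_le_of_le_one_left (norm_nonneg _) (pow_le_one₀ (norm_nonneg _) h)
  · rw [max_eq_right h, max_eq_left, mul_comm]
    exact le_mul_of_one_le_left (norm_nonneg _) (one_le_pow₀ h)

lemma rev_lead_norm (hA : Good A) : ‖(cc A.reverse).leadingCoeff‖ = 1 := by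
  rw [lead_cc, lead_rev hA, Complex.norm_intCast]
  exact_mod_cast hA.const

lemma rr_ge (hA : Good A) : 1 ≤ RR A := by
  have hB0 : A.reverse ≠ 0 := by
    rw [Ne, reverse_eq_zero]
    exact good_ne hA
  have h1 := int_res A.reverse A hB0 A.natDegree le_rfl (fun x hx h0 =>
    not_both hA x ⟨h0, (mem_roots'.1 hx).2⟩)
  rwa [rev_lead_norm hA, one_pow, one_mul] at h1

end gpl

/-- The distinct zeros of `f`. -/
theorem rz (hDD : S_DD) (hRD : S_RD) : S_RZ := by
  intro A s n hA hs hn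
  obtain ⟨F0, G, hFG, hsep, hd1, hd2, hlF⟩ := hRD A s n hA hs hn
  have hf0 := gp_ne hA hs hn
  have hF0 : F0 ≠ 0 := by
    rintro rfl
    rw [zero_mul] at hFG
    exact hf0 hFG
  have hG0 : G ≠ 0 := by
    rintro rfl
    rw [mul_zero] at hFG
    exact hf0 hFG
  have hB0 : A.reverse ≠ 0 := by
    rw [Ne, reverse_eq_zero]
    exact good_ne hA
  have hcc : cc (gp A s n) = cc F0 * cc G := by
    unfold cc
    rw [hFG, Polynomial.map_mul]
  have hl : ‖(cc F0).leadingCoeff‖ = 1 := by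
    rw [lead_cc, Complex.norm_intCast]
    exact_mod_cast hlF
  have hzf : ∀ x, (cc F0).eval x = 0 → (cc (gp A s n)).eval x = 0 := by
    intro x hx
    rw [hcc, eval_mul, hx, zero_mul]
  have hBd : A.reverse.natDegree = A.natDegree := natDegree_rev hA
  have hMG : 1 ≤ (cc G).mahlerMeasure := one_le_mahlerMeasure_of_ne_zero hG0
  have hMF : 1 ≤ (cc F0).mahlerMeasure := one_le_mahlerMeasure_of_ne_zero hF0
  have hMle : (cc F0).mahlerMeasure ≤ (cc (gp A s n)).mahlerMeasure := by
    rw [hcc, mahlerMeasure_mul]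
    exact le_mul_of_one_le_right (by linarith) hMG
  obtain ⟨d, hd⟩ : ∃ d, d = F0.natDegree := ⟨_, rfl⟩
  obtain ⟨z, hz⟩ := exists_lists (cc F0) (d := d) ((natDegree_cc F0).trans hd.symm)
  rw [← hd] at hd1 hd2
  have hzr : ∀ i, (cc F0).eval (z i) = 0 := fun i =>
    (mem_roots (cc_ne hF0)).1 ((mem_lists (cc_ne hF0) hz).2 ⟨i, rfl⟩)
  have hV := v2_ge F0 hF0 hsep hd.symm hz
  rw [hl, one_pow, one_mul] at hV
  have hPz := mm_lists hF0 hz
  rw [hl, one_mul] at hPz
  -- the product of `|B|`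
  have hBp : ∏ i, ‖(cc A.reverse).eval (z i)‖ ≤ RR A := by
    have h1 := res_swap (cc F0) (cc A.reverse)
    rw [hl, one_pow, one_mul, rev_lead_norm hA, one_pow, one_mul,
      prod_lists (cc_ne hF0) hz] at h1
    rw [h1]
    have h2 := int_res A.reverse G hB0 G.natDegree le_rfl (by
      intro x hx h0
      have h3 : (cc A.reverse).eval x = 0 := (mem_roots'.1 hx).2
      have h4 : (cc (gp A s n)).eval x = 0 := by rw [hcc, eval_mul, h0, mul_zero]
      exact gp_B hA x h4 h3)
    rw [rev_lead_norm hA, one_pow, one_mul] at h2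
    have h5 : RR A = ((cc A.reverse).roots.map fun y => ‖(cc F0).eval y‖).prod *
        ((cc A.reverse).roots.map fun y => ‖(cc G).eval y‖).prod := by
      rw [← Multiset.prod_map_mul]
      unfold RR
      congr 1
      refine Multiset.map_congr rfl fun y hy => ?_
      have h3 : (cc A.reverse).eval y = 0 := (mem_roots'.1 hy).2
      have h4 := gp_eval (A := A) (s := s) (n := n) y
      rw [h3, mul_zero, add_zero, hcc, eval_mul] at h4
      rw [← h4, norm_mul]
    rw [h5]
    refine le_mul_of_one_le_right ?_ h2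
    apply Multiset.prod_nonneg
    intro b hb
    obtain ⟨y, -, rfl⟩ := Multiset.mem_map.1 hb
    exact norm_nonneg _
  obtain ⟨ρ1, h1, h2, h3, h4⟩ := ro1 hDD F0 A d (n + A.natDegree) hd.symm hF0 hl hsep hA.deg
    (by omega) hd2 (fun x hx => gp_A hA hs x (hzf x hx)) hz
  obtain ⟨ρ2, h5, h6, h7, h8⟩ := ro1 hDD F0 A.reverse d (n + A.natDegree) hd.symm hF0 hl hsep
    (by rw [hBd]; exact hA.deg) (by omega) hd2 (fun x hx => gp_B hA x (hzf x hx)) hz
  rw [mm_rev (good_ne hA)] at h8
  refine ⟨d, z, fun i => min (ρ1 i) (ρ2 i), hd1, hd2, rr_ge hA, hV, fun i =>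
    ⟨gp_A hA hs _ (hzf _ (hzr i)), gp_B hA _ (hzf _ (hzr i))⟩, ?_, ?_, fun i => lt_min (h1 i) (h5 i),
    fun i => (min_le_left _ _).trans (h2 i), fun i x hx => (min_le_left _ _).trans (h3 i x hx),
    fun i x hx => (min_le_right _ _).trans (h7 i x hx), ?_⟩
  · rw [← hPz]
    exact hMle
  · have h9 : ∏ i, HH A (z i) = (∏ i, ‖(cc A.reverse).eval (z i)‖) *
        (∏ i, max 1 ‖z i‖) ^ n := by
      rw [← Finset.prod_pow, ← Finset.prod_mul_distrib]
      exact Finset.prod_congr rfl fun i _ => gp_HH hs _ (hzf _ (hzr i))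
    rw [h9, ← hPz]
    apply mul_le_mul hBp (pow_le_pow_left₀ (by linarith) hMle n) (by positivity)
    exact zero_le_one.trans (rr_ge hA)
  · have hb : ∀ i, Real.log (1 / min (ρ1 i) (ρ2 i)) ≤
        Real.log (1 / ρ1 i) + Real.log (1 / ρ2 i) := by
      intro i
      have l1 : 0 ≤ Real.log (1 / ρ1 i) :=
        Real.log_nonneg ((one_le_div (h1 i)).2 (h2 i))
      have l2 : 0 ≤ Real.log (1 / ρ2 i) :=
        Real.log_nonneg ((one_le_div (h5 i)).2 (h6 i))
      rcases min_choice (ρ1 i) (ρ2 i) with h | h <;> rw [h] <;> linarith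
    refine (Finset.sum_le_sum fun i _ => hb i).trans ?_
    rw [Finset.sum_add_distrib]
    have h9 : Real.log (cc F0).mahlerMeasure ≤ Real.log (cc (gp A s n)).mahlerMeasure :=
      Real.log_le_log (by linarith) hMle
    have h10 : (2 * (n + A.natDegree : ℕ) : ℝ) * Real.log (cc F0).mahlerMeasure ≤
        (2 * (n + A.natDegree : ℕ) : ℝ) * Real.log (cc (gp A s n)).mahlerMeasure :=
      mul_le_mul_of_nonneg_left h9 (by positivity)
    linarith

end Pool.Agent.Helper46.GP
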